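import Pool.Agent.Helper34.ST.Basic

/-!
# Assembly of the main theorem
-/

set_option autoImplicit false

namespace Pool.Agent.Helper34.ST

open Finset

theorem narrow_of_step (h : ST_STEP) : ST_NARROW := by
  intro ι _ _ r J
  induction J with
  | zero =>
    intro η hη
    refine ⟨1, le_rfl, fun d hd hw z hz σ u a hu hR => ?_⟩
    exfalso
    have h1 := hR a (a + 1) le_rfl (by omega) (by omega) le_rfl
    have h2 := hR (a + 1) a (by omega) le_rfl le_rfl (by omega)
    rcases ht_succ_cases σ a with h3 | h3 <;> omega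
  | succ J ih => exact h ι r J ih

theorem main_of (hRED : ST_RED) (hRWU : ST_RWU) (hEMB : ST_EMB) : ST_MAIN := by
  intro θ0 hθ0
  -- reduction to `θ ≤ 1`
  set θ : ℝ := min θ0 1 with hθd
  have hθ : 0 < θ := lt_min hθ0 one_pos
  have hθ1 : θ ≤ 1 := min_le_right _ _
  have hθle : θ ≤ θ0 := min_le_left _ _
  set ε : ℝ := θ ^ 2 / 128 with hε
  have hε0 : 0 < ε := by positivity
  obtain ⟨S, hS⟩ := hRED θ ε hθ hθ1 hε0
  obtain ⟨K, hK⟩ := hRWU S (θ / 8) (by positivity)
  obtain ⟨n1, hn1⟩ := exists_nat_ge (8 * (K : ℝ) / θ * S)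
  refine ⟨max S n1 + 1, ?_⟩
  intro V _ A hA hn k hout hin σ
  have hm1 := le_max_left S n1
  have hm2 := le_max_right S n1
  have hVS : S ≤ Fintype.card V := by omega
  have hVn : n1 ≤ Fintype.card V := by omega
  have hVpos : 0 < Fintype.card V := by omega
  set n : ℝ := (Fintype.card V : ℝ) with hnd
  have hn0 : 0 < n := by rw [hnd]; exact_mod_cast hVpos
  have hVne : Nonempty V := Fintype.card_pos_iff.1 hVpos
  set δ : ℝ := (k : ℝ) / 2 + θ * n with hδ
  have hk0 : (0 : ℝ) ≤ k := Nat.cast_nonneg k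
  have hmul : θ * n ≤ θ0 * n := mul_le_mul_of_nonneg_right hθle hn0.le
  obtain ⟨ι, κ, _, _, P, g, ρ, s, hcard, hs1, hns, hdis, hirr, hreg, hsz, hwt⟩ :=
    hS V A hA hVS δ (by rw [hδ]; linarith) (fun v => le_trans (by rw [hδ]; linarith) (hout v))
      (fun v => le_trans (by rw [hδ]; linarith) (hin v))
  have hδn : δ ≤ n := by
    obtain ⟨v⟩ := hVne
    have h1 := hout v
    have h2 : {y | A v y}.ncard ≤ Fintype.card V := by
      rw [← Nat.card_eq_fintype_card]
      exact Set.ncard_le_card _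
    have h3 : ({y | A v y}.ncard : ℝ) ≤ n := by rw [hnd]; exact_mod_cast h2
    rw [hδ]
    linarith
  have hs0 : (0 : ℝ) < s := by exact_mod_cast hs1
  set d : ℝ := (δ - 5 / 8 * θ * n) / s with hd
  have hnum : 3 / 8 * (θ * n) ≤ δ - 5 / 8 * θ * n := by rw [hδ]; nlinarith
  have hθn : 0 < θ * n := mul_pos hθ hn0
  have hnum0 : 0 < δ - 5 / 8 * θ * n := by linarith
  have hd0 : 0 < d := div_pos hnum0 hs0
  obtain ⟨W, hW, hload⟩ := hK ι (fun i j => ρ (g i) (g j)) hcard d hd0 hwt σ k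
  -- `k / (2 d) ≤ s (1 - 3 θ / 8)`
  have hkd : (k : ℝ) / (2 * d) ≤ s * (1 - 3 / 8 * θ) := by
    have e : (k : ℝ) = 2 * (δ - θ * n) := by rw [hδ]; ring
    rw [e, div_le_iff₀ (by positivity), hd]
    have e2 : s * (1 - 3 / 8 * θ) * (2 * ((δ - 5 / 8 * θ * n) / s)) = 2 * ((1 - 3 / 8 * θ) * (δ - 5 / 8 * θ * n)) := by
      field_simp
    rw [e2]
    have h1 : 3 / 8 * θ * (δ - 5 / 8 * θ * n) ≤ 3 / 8 * θ * n :=
      mul_le_mul_of_nonneg_left (by nlinarith) (by positivity)
    nlinarith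
  have hKs : (K : ℝ) ≤ θ / 8 * s := by
    have h1 : n ≤ S * s := by rw [hnd]; exact_mod_cast hns
    have h2 : 8 * (K : ℝ) / θ * S ≤ S * s := le_trans hn1 (le_trans (by rw [hnd]; exact_mod_cast hVn) h1)
    have hS0 : (0 : ℝ) < S := by
      have : 0 < S := by
        rcases Nat.eq_zero_or_pos S with h | h
        · rw [h] at hns
          omega
        · exact h
      exact_mod_cast this
    have h3 : 8 * (K : ℝ) / θ ≤ s := by
      have h4 : (8 * (K : ℝ) / θ) * S ≤ s * S := by linarith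
      exact le_of_mul_le_mul_right h4 hS0
    rw [div_le_iff₀ hθ] at h3
    linarith
  have hWalk : Walk ρ σ 0 k (fun t => g (W t)) := hW
  refine (hEMB V κ A P ρ ε (θ / 16) (θ / 8) hε0 ?_ (by positivity) (by positivity) ?_ hdis hirr hreg
    σ k (fun t => g (W t)) hWalk ?_)
  · rw [hε]
    nlinarith
  · rw [hε]
    nlinarith
  · intro k0
    -- total load of a class
    classical
    set I : Finset ι := univ.filter (fun i => g i = k0) with hI
    have hIc : {i | g i = k0}.ncard = I.card := by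
      rw [← Set.ncard_coe_finset]
      congr 1
      ext i
      simp [hI]
    have h1 : {t | t ≤ k ∧ g (W t) = k0}.ncard ≤ ∑ i ∈ I, {t | t ≤ k ∧ W t = i}.ncard := by
      have hsub : {t | t ≤ k ∧ g (W t) = k0} ⊆ ⋃ i ∈ I, {t | t ≤ k ∧ W t = i} := by
        rintro t ⟨ht1, ht2⟩
        simp only [Set.mem_iUnion]
        exact ⟨W t, by rw [hI, Finset.mem_filter]; exact ⟨Finset.mem_univ _, ht2⟩, ht1, rfl⟩
      have hfin : (⋃ i ∈ I, {t | t ≤ k ∧ W t = i}).Finite := by
        refine (Set.finite_Iic k).subset ?_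
        intro t ht
        simp only [Set.mem_iUnion] at ht
        obtain ⟨i, _, h⟩ := ht
        exact h.1
      exact (Set.ncard_le_ncard hsub hfin).trans (Finset.set_ncard_biUnion_le _ _)
    have h2 : (∑ i ∈ I, ({t | t ≤ k ∧ W t = i}.ncard : ℝ)) ≤ I.card * ((1 + θ / 8) * k / (2 * d) + K) := by
      calc _ ≤ ∑ i ∈ I, ((1 + θ / 8) * k / (2 * d) + K) := Finset.sum_le_sum fun i _ => hload i
        _ = _ := by rw [Finset.sum_const, nsmul_eq_mul]
    have h3 : (1 + θ / 8) * k / (2 * d) + K ≤ s * (1 - θ / 8) := by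
      have e : (1 + θ / 8) * (k : ℝ) / (2 * d) = (1 + θ / 8) * (k / (2 * d)) := by ring
      rw [e]
      have h4 : (1 + θ / 8) * ((k : ℝ) / (2 * d)) ≤ (1 + θ / 8) * (s * (1 - 3 / 8 * θ)) :=
        mul_le_mul_of_nonneg_left hkd (by positivity)
      nlinarith [mul_pos hs0 (mul_pos hθ hθ)]
    have h5 := hsz k0
    rw [hIc] at h5
    have h6 : (I.card : ℝ) * ((1 + θ / 8) * k / (2 * d) + K) ≤ I.card * (s * (1 - θ / 8)) :=
      mul_le_mul_of_nonneg_left h3 (Nat.cast_nonneg _)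
    have h7 : (I.card : ℝ) * (s * (1 - θ / 8)) ≤ (1 - θ / 8) * (P k0).card := by
      have : (I.card : ℝ) * (s * (1 - θ / 8)) = (1 - θ / 8) * (I.card * s) := by ring
      rw [this]
      exact mul_le_mul_of_nonneg_left h5 (by linarith)
    have h8 : (({t | t ≤ k ∧ g (W t) = k0}.ncard : ℕ) : ℝ) ≤ ∑ i ∈ I, ({t | t ≤ k ∧ W t = i}.ncard : ℝ) := by
      exact_mod_cast h1
    exact h8.trans (h2.trans (h6.trans h7))

end Pool.Agent.Helper34.ST
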