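import Pool.Agent.Helper34.ST.Basic

set_option autoImplicit false

namespace Pool.Agent.Helper34.ST

open Finset

theorem st_SEL : ST_SEL := by
  classical
  intro ι _ z d hd hz D F φ j e hD hF hinj hdis
  have hDpos : (0 : ℝ) < D := lt_of_lt_of_le hd hD
  have hne : F.Nonempty := by
    rw [← Finset.card_pos, hF]
    exact_mod_cast hDpos
  have key : ∀ i, i < j → ∑ f ∈ F, z (φ i f) + ∑ f ∈ F, z (φ (i + 1) f) ≤ 2 * D := by
    intro i hi
    have h1 : ∑ f ∈ F, z (φ i f) = ∑ x ∈ F.image (φ i), z x := (Finset.sum_image (hinj i)).symm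
    have h2 : ∑ f ∈ F, z (φ (i + 1) f) = ∑ x ∈ F.image (φ (i + 1)), z x := (Finset.sum_image (hinj (i + 1))).symm
    have h3 : Disjoint (F.image (φ i)) (F.image (φ (i + 1))) := by
      rw [Finset.disjoint_left]
      intro x hx hx'
      rw [Finset.mem_image] at hx hx'
      obtain ⟨f, hf, h⟩ := hx
      obtain ⟨f', hf', h'⟩ := hx'
      exact hdis i hi f hf f' hf' (h.trans h'.symm)
    rw [h1, h2, ← Finset.sum_union h3]
    calc _ ≤ ∑ x, z x := Finset.sum_le_univ_sum_of_nonneg hz.1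
      _ ≤ 2 * d := hz.2
      _ ≤ 2 * D := by linarith
  refine Finset.exists_le_of_sum_le (s := F) hne ?_
  rw [Finset.sum_comm, Finset.sum_const, hF, nsmul_eq_mul]
  calc _ = ∑ i ∈ range j, (e i : ℝ) * (∑ f ∈ F, z (φ i f) + ∑ f ∈ F, z (φ (i + 1) f)) := by
        refine Finset.sum_congr rfl fun i _ => ?_
        rw [← Finset.mul_sum, Finset.sum_add_distrib]
    _ ≤ ∑ i ∈ range j, (e i : ℝ) * (2 * D) := by
        refine Finset.sum_le_sum fun i hi => mul_le_mul_of_nonneg_left (key i (Finset.mem_range.1 hi)) (Nat.cast_nonneg _)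
    _ = _ := by rw [← Finset.sum_mul]; ring

end Pool.Agent.Helper34.ST
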