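import Pool.Agent.Helper34.ST.Defs

/-!
# Oriented paths in dense oriented graphs: statements of the modules
-/

set_option autoImplicit false

namespace Pool.Agent.Helper34.ST

open Finset

/-! ### I. cheap closed walks -/

/-- chain lemma -/
def ST_CHAIN : Prop :=
  ∀ (ι : Type) [Fintype ι] [Nonempty ι] (r : ι → ι → Prop) (d : ℝ), 0 < d → WtO r d →
  ∀ (Q : ℕ → Set ι) (N : ℕ), Monotone Q → Q 0 = ∅ → Q N = Set.univ →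
    ∃ m, m < N ∧ 2 * d ≤ ((Q (m + 1) \ {u | ∀ v, r u v → v ∈ Q m}).ncard : ℝ) +
      ((Q (m + 2) \ {u | ∀ v, r u v → v ∈ Q (m + 1)}).ncard : ℝ)

/-- potentials -/
def ST_POT : Prop :=
  ∀ (ι : Type) [Fintype ι] (r : ι → ι → Prop) (c : ι → ℤ) (q : ℤ), (∀ u, -q ≤ c u) →
    (∀ (L : ℕ) (p : ℕ → ι), 1 ≤ L → L ≤ Fintype.card ι → p L = p 0 → (∀ i, i < L → r (p i) (p (i + 1))) →
      0 ≤ ∑ i ∈ range L, c (p i)) →
    ∃ π : ι → ℤ, ∀ u v, r u v → π v ≤ π u + c u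

/-- integral costs: if every short closed walk has mean cost at least `q`, the total is at least `2 d q` -/
def ST_MMCI : Prop :=
  ∀ (ι : Type) [Fintype ι] [Nonempty ι] (r : ι → ι → Prop) (d : ℝ), 0 < d → WtO r d →
  ∀ (Z : ι → ℕ) (q : ℕ), 1 ≤ q →
    (∀ (L : ℕ) (p : ℕ → ι), 1 ≤ L → L ≤ Fintype.card ι → p L = p 0 → (∀ i, i < L → r (p i) (p (i + 1))) →
      q * L ≤ ∑ i ∈ range L, Z (p i)) →
    2 * d * q ≤ ∑ u, (Z u : ℝ)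

/-- cheap closed walk -/
def ST_MMC : Prop :=
  ∀ (ι : Type) [Fintype ι] [Nonempty ι] (r : ι → ι → Prop) (d : ℝ), 0 < d → WtO r d →
  ∀ z : ι → ℝ, Cst z d →
    ∃ (L : ℕ) (u : ℤ → ι), 1 ≤ L ∧ Dir r u ∧ (∀ i, u (i + L) = u i) ∧ ∑ i ∈ range L, z (u i) ≤ L

/-- cheap closed walk in a nonempty set closed under out-neighbours -/
def ST_MMCS : Prop :=
  ∀ (ι : Type) [Fintype ι] (r : ι → ι → Prop) (d : ℝ), 0 < d → WtO r d →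
  ∀ z : ι → ℝ, Cst z d → ∀ C : Set ι, C.Nonempty → (∀ x ∈ C, ∀ y, r x y → y ∈ C) →
    ∃ (L : ℕ) (u : ℤ → ι), 1 ≤ L ∧ Dir r u ∧ (∀ i, u i ∈ C) ∧ (∀ i, u (i + L) = u i) ∧
      ∑ i ∈ range L, z (u i) ≤ L

/-! ### II. cheap directed paths in a component of the layered graph -/

/-- `D` walks which are disjoint at every level -/
def ST_INJ : Prop :=
  ∀ (ι : Type) [Fintype ι] (r : ι → ι → Prop) (D : ℕ) (F : Finset ι) (C : Set ι), F.card = D →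
    (∀ x ∈ C, ∀ y, r x y → y ∈ C) → (∀ x ∈ F, x ∈ C) → (∀ x ∈ C, D ≤ {y | r x y}.ncard) →
    ∃ φ : ℕ → ι → ι, (∀ f ∈ F, φ 0 f = f) ∧ (∀ i, Set.InjOn (φ i) (F : Set ι)) ∧
      ∀ i, ∀ f ∈ F, φ i f ∈ C ∧ r (φ i f) (φ (i + 1) f)

/-- selection of a cheap one among `D` walks -/
def ST_SEL : Prop :=
  ∀ (ι : Type) [Fintype ι] (z : ι → ℝ) (d : ℝ), 0 < d → Cst z d →
  ∀ (D : ℕ) (F : Finset ι) (φ : ℕ → ι → ι) (j : ℕ) (e : ℕ → ℕ), d ≤ D → F.card = D →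
    (∀ i, Set.InjOn (φ i) (F : Set ι)) →
    (∀ i, i < j → ∀ f ∈ F, ∀ f' ∈ F, φ i f ≠ φ (i + 1) f') →
    ∃ f ∈ F, ∑ i ∈ range j, (e i : ℝ) * (z (φ i f) + z (φ (i + 1) f)) ≤ 2 * ∑ i ∈ range j, (e i : ℝ)

/-- elementary facts on `Conn` -/
def ST_STAR : Prop :=
  ∀ (ι : Type) (r : ι → ι → Prop), (∀ x, ∃ y, r x y) → (∀ x, ∃ y, r y x) → ∀ j : ℕ,
    (∀ x y, Conn r j x y → Conn r j y x) ∧
    (∀ i x y w, i ≤ j → Pth r i x w → Pth r i y w → Conn r j x y) ∧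
    (∀ w w' x y, Conn (fun a b => r b a) j w w' → Pth r j x w → Pth r j y w' → Conn r j x y) ∧
    (∀ w w' x y, Conn r j x y → Pth r j x w → Pth r j y w' → Conn (fun a b => r b a) j w w')

/-- conclusion of the following statements: a cheap path which starts in the class of `x` -/
def Cheap {ι : Type} (r : ι → ι → Prop) (z : ι → ℝ) (j : ℕ) (e : ℕ → ℕ) (x : ι) : Prop :=
  ∃ c : ℕ → ι, (∀ i, i < j → r (c i) (c (i + 1))) ∧ Conn r j x (c 0) ∧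
    ∑ i ∈ range j, (e i : ℝ) * (z (c i) + z (c (i + 1))) ≤ 2 * ∑ i ∈ range j, (e i : ℝ)

/-- case A: some vertex of the class has a parent outside of the class -/
def ST_NLA : Prop :=
  ∀ (ι : Type) [Fintype ι] (r : ι → ι → Prop) (d : ℝ), 0 < d → Wt r d →
  ∀ z : ι → ℝ, Cst z d → ∀ (j : ℕ) (e : ℕ → ℕ) (x v p : ι), 2 ≤ j →
    Conn r j x v → r p v → ¬ Conn r j x p → Cheap r z j e x

/-- case B: the class is closed under children -/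
def ST_NLB : Prop :=
  ∀ (ι : Type) [Fintype ι] (r : ι → ι → Prop) (d : ℝ), 0 < d → Wt r d →
  ∀ z : ι → ℝ, Cst z d → ∀ (j : ℕ) (e : ℕ → ℕ) (x : ι),
    (∀ v y, Conn r j x v → r v y → Conn r j x y) → Cheap r z j e x

/-- height one -/
def ST_NL1 : Prop :=
  ∀ (ι : Type) [Fintype ι] (r : ι → ι → Prop) (d : ℝ), 0 < d → Wt r d →
  ∀ z : ι → ℝ, Cst z d → ∀ (e : ℕ → ℕ) (x : ι), Cheap r z 1 e x

/-- all heights -/
def ST_NL : Prop :=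
  ∀ (ι : Type) [Fintype ι] (r : ι → ι → Prop) (d : ℝ), 0 < d → Wt r d →
  ∀ z : ι → ℝ, Cst z d → ∀ (j : ℕ) (e : ℕ → ℕ) (x : ι), 1 ≤ j → Cheap r z j e x

/-! ### III. strong components -/

/-- a closed strongly connected set and its period -/
def ST_SCC : Prop :=
  ∀ (ι : Type) [Fintype ι] [Nonempty ι] (r : ι → ι → Prop), (∀ x, ∃ y, r x y) →
    ∃ (C : Set ι) (g : ℕ) (c : ι → ZMod g) (J : ℕ), C.Nonempty ∧ 1 ≤ g ∧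
      (∀ x ∈ C, ∀ y, r x y → y ∈ C ∧ c y = c x + 1) ∧ (∀ x ∈ C, ∃ y ∈ C, r y x) ∧
      (∀ x ∈ C, ∀ y ∈ C, ∀ n : ℕ, J ≤ n → c y = c x + n → Pth r n x y)

/-- cheap paths in a closed strongly connected set -/
def ST_WNL : Prop :=
  ∀ (ι : Type) [Fintype ι] (r : ι → ι → Prop) (d : ℝ), 0 < d → WtO r d → ∀ z : ι → ℝ, Cst z d →
  ∀ (C : Set ι) (g : ℕ) (c : ι → ZMod g), 1 ≤ g → (∀ x ∈ C, ∀ y, r x y → y ∈ C ∧ c y = c x + 1) →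
    (∀ x ∈ C, ∃ y ∈ C, r y x) → ∀ x ∈ C, ∀ (j : ℕ) (e : ℕ → ℕ),
    ∃ p : ℕ → ι, p 0 ∈ C ∧ c (p 0) = c x ∧ (∀ i, i < j → r (p i) (p (i + 1))) ∧
      ∑ i ∈ range j, (e i : ℝ) * (z (p i) + z (p (i + 1))) ≤ 2 * ∑ i ∈ range j, (e i : ℝ)

/-! ### IV. walks along directed walks -/

/-- extension of a finite path to a bi-infinite walk -/
def ST_EXT : Prop :=
  ∀ (ι : Type) (r : ι → ι → Prop) (C : Set ι), (∀ x ∈ C, ∃ y ∈ C, r x y) → (∀ x ∈ C, ∃ y ∈ C, r y x) →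
  ∀ (n : ℕ) (p : ℕ → ι), (∀ i, i ≤ n → p i ∈ C) → (∀ i, i < n → r (p i) (p (i + 1))) →
  ∀ lo : ℤ, ∃ u : ℤ → ι, Dir r u ∧ (∀ i, u i ∈ C) ∧ ∀ i : ℕ, i ≤ n → u (lo + i) = p i

/-- gluing -/
def ST_GLUE : Prop :=
  ∀ (ι : Type) (r : ι → ι → Prop) (C : Set ι) (u v : ℤ → ι) (a : ℤ) (n : ℕ) (p : ℕ → ι), Dir r u → Dir r v →
    (∀ i, u i ∈ C) → (∀ i, v i ∈ C) → p 0 = u a → p n = v (a + n) → (∀ i, i < n → r (p i) (p (i + 1))) →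
    (∀ i, i ≤ n → p i ∈ C) →
    ∃ x : ℤ → ι, Dir r x ∧ (∀ i, x i ∈ C) ∧ (∀ i, i ≤ a → x i = u i) ∧ ∀ i, a + n ≤ i → x i = v i

/-- switching sequences -/
def ST_SW : Prop :=
  ∀ (ι : Type) [Fintype ι] (r : ι → ι → Prop), (∀ x, ∃ y, r x y) → (∀ x, ∃ y, r y x) → ∀ j : ℕ,
    ∃ R : ℕ, ∀ (u v : ℤ → ι) (lo : ℤ), Dir r u → Dir r v → Conn r j (u lo) (v lo) →
      ∃ U : ℕ → ℤ → ι, (∀ i, Dir r (U i)) ∧ U 0 = u ∧ (∀ t, lo ≤ t → t ≤ lo + j → U R t = v t) ∧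
        ∀ i, i < R → (Even i → U (i + 1) lo = U i lo) ∧ (Odd i → U (i + 1) (lo + j) = U i (lo + j))

/-- cost along a directed walk in terms of the numbers of steps between consecutive levels -/
def ST_COSTC : Prop :=
  ∀ (σ : ℕ → Bool) (a b : ℕ) (lo : ℤ) (j : ℕ), a ≤ b →
    (∀ t, a ≤ t → t ≤ b → lo ≤ ht σ t ∧ ht σ t ≤ lo + j) →
    ∃ e : ℕ → ℕ, ∑ i ∈ range j, e i = b - a ∧ ∀ f : ℤ → ℝ,
      2 * ∑ t ∈ Finset.Ico a b, f (ht σ (t + 1)) =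
        ∑ i ∈ range j, (e i : ℝ) * (f (lo + i) + f (lo + i + 1)) + f (ht σ b) - f (ht σ a)

/-- phase with switching -/
def ST_PH : Prop :=
  ∀ (ι : Type) (r : ι → ι → Prop) (z : ι → ℝ) (κ Zm : ℝ) (ℓ J : ℕ), (∀ i, 0 ≤ z i) → (∀ i, z i ≤ Zm) →
    0 ≤ κ → 1 ≤ ℓ → NC r z ℓ J κ → ∀ (σ : ℕ → Bool) (a : ℕ) (lo : ℤ) (Q : ℕ),
    (∀ t, a ≤ t → t ≤ a + Q * ℓ → lo ≤ ht σ t ∧ ht σ t ≤ lo + (J + 1)) →
    ∀ U : ℕ → ℤ → ι, (∀ i, Dir r (U i)) →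
      (∀ i, i < nfull σ a ℓ J Q → (Even i → U (i + 1) lo = U i lo) ∧
        (Odd i → U (i + 1) (lo + (J + 1)) = U i (lo + (J + 1)))) →
      ∃ W : ℕ → ι, Walk r σ a (a + Q * ℓ) W ∧ W a = U 0 (ht σ a) ∧
        W (a + Q * ℓ) = U (nfull σ a ℓ J Q) (ht σ (a + Q * ℓ)) ∧
        cost z W a (a + Q * ℓ) ≤ Q * κ + nfull σ a ℓ J Q * Zm * ℓ

/-- phase without switching: no block of large range -/
def ST_PH0 : Prop :=
  ∀ (ι : Type) (r : ι → ι → Prop) (z : ι → ℝ) (κ : ℝ) (ℓ J : ℕ), NC r z ℓ J κ →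
    ∀ (σ : ℕ → Bool) (a Q : ℕ) (u : ℤ → ι), Dir r u →
      (∀ q, q < Q → Rg σ (a + q * ℓ) (a + (q + 1) * ℓ) J) →
      ∃ W : ℕ → ι, Walk r σ a (a + Q * ℓ) W ∧ W a = u (ht σ a) ∧
        W (a + Q * ℓ) = u (ht σ (a + Q * ℓ)) ∧ cost z W a (a + Q * ℓ) ≤ Q * κ

/-- the induction step for narrow blocks -/
def ST_STEP : Prop :=
  ∀ (ι : Type) [Fintype ι] [Nonempty ι] (r : ι → ι → Prop) (J : ℕ), Narrow r J → Narrow r (J + 1)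

/-- narrow blocks -/
def ST_NARROW : Prop :=
  ∀ (ι : Type) [Fintype ι] [Nonempty ι] (r : ι → ι → Prop) (J : ℕ), Narrow r J

/-- excursion: change from the directed walk `u` to the directed walk `v` inside a block -/
def ST_EXC : Prop :=
  ∀ (ι : Type) (r : ι → ι → Prop) (C : Set ι) (g : ℕ) (c : ι → ZMod g) (J : ℕ),
    (∀ x ∈ C, ∀ y, r x y → y ∈ C ∧ c y = c x + 1) →
    (∀ x ∈ C, ∀ y ∈ C, ∀ n : ℕ, J ≤ n → c y = c x + n → Pth r n x y) →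
  ∀ (σ : ℕ → Bool) (a b : ℕ) (u v : ℤ → ι), a ≤ b → ¬ Rg σ a b J → Dir r u → Dir r v → (∀ i, u i ∈ C) →
    (∀ i, v i ∈ C) → (∀ i, c (u i) = c (v i)) →
    ∃ W : ℕ → ι, Walk r σ a b W ∧ W a = u (ht σ a) ∧ W b = v (ht σ b)

/-- all blocks -/
def ST_WIDE : Prop :=
  ∀ (ι : Type) [Fintype ι] [Nonempty ι] (r : ι → ι → Prop), Wide r

/-! ### V. balanced walks -/

/-- multiplicative weights -/
def ST_HEDGE : Prop :=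
  ∀ (ι : Type) [Fintype ι] [Nonempty ι] (r : ι → ι → Prop), Wide r → ∀ η : ℝ, 0 < η → ∃ K : ℕ, Bal r η K

/-- uniform version -/
def ST_RWU : Prop :=
  ∀ (M : ℕ) (η : ℝ), 0 < η → ∃ K : ℕ, ∀ (ι : Type) [Fintype ι] [Nonempty ι] (r : ι → ι → Prop),
    Fintype.card ι ≤ M → Bal r η K

/-! ### VI. embedding -/

/-- embedding lemma -/
def ST_EMB : Prop :=
  ∀ (V κ : Type) [Fintype V] (A : V → V → Prop) (P : κ → Finset V) (ρ : κ → κ → Prop) (ε γ η : ℝ),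
    0 < ε → ε < 1 → 0 < γ → 0 < η → ε ≤ γ * η → (∀ i j, i ≠ j → Disjoint (P i) (P j)) → (∀ i, ¬ ρ i i) →
    (∀ i j, ρ i j → ∀ X ⊆ P i, ∀ Y ⊆ P j, ε * (P i).card ≤ X.card → ε * (P j).card ≤ Y.card →
      γ * (X.card * Y.card) ≤ ed A X Y) →
    ∀ (σ : ℕ → Bool) (k : ℕ) (W : ℕ → κ), Walk ρ σ 0 k W →
      (∀ i, ({t | t ≤ k ∧ W t = i}.ncard : ℝ) ≤ (1 - η) * (P i).card) →
      ∃ x : ℕ → V, (∀ s t, s ≤ k → t ≤ k → x s = x t → s = t) ∧ Walk A σ 0 k x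

/-! ### VII. regularity -/

/-- energy of a refinement: Pythagoras with disjoint witnesses -/
def ST_PYT : Prop :=
  ∀ (Ω κ κ' K : Type) [Fintype Ω] [Fintype K] (c : Ω → κ) (c' : Ω → κ') (g : κ' → κ) (f : Ω → ℝ)
    (a : Ω → ℝ) (a' : Ω → ℝ) (B : K → Finset Ω) (b : K → ℝ), (∀ x, c x = g (c' x)) →
    (∀ x, a x * (cl c (c x)).card = ∑ y ∈ cl c (c x), f y) →
    (∀ x, a' x * (cl c' (c' x)).card = ∑ y ∈ cl c' (c' x), f y) →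
    (∀ k l, k ≠ l → Disjoint (B k) (B l)) → (∀ k, ∀ x ∈ B k, a x = b k) →
    (∀ k, ∀ x ∈ B k, ∀ y, c' y = c' x → y ∈ B k) →
    ∑ x, a x ^ 2 + ∑ k, ((∑ x ∈ B k, f x) - b k * (B k).card) ^ 2 / (B k).card ≤ ∑ x, a' x ^ 2

/-- energy increment -/
def ST_INC : Prop :=
  ∀ (V κ : Type) [Fintype V] [Fintype κ] (A : V → V → Prop) (ε : ℝ) (c : V → κ), 0 < ε →
    ∃ c' : V → κ × (κ → Bool) × (κ → Bool), (∀ x, (c' x).1 = c x) ∧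
      en A c + ε ^ 4 * irr A ε c ≤ en A c'

/-- regularity lemma -/
def ST_REG : Prop :=
  ∀ ε : ℝ, 0 < ε → ∃ M : ℕ, ∀ (V : Type) [Fintype V] (A : V → V → Prop), M ≤ Fintype.card V →
    ∃ (m : ℕ) (c : V → Fin m), m ≤ M ∧ irr A ε c ≤ ε * (Fintype.card V : ℝ) ^ 2 ∧
      ∑ i, ((cl c i).card : ℝ) ^ 2 ≤ ε * (Fintype.card V : ℝ) ^ 2

/-- reduced graph -/
def ST_RED : Prop :=
  ∀ (θ ε : ℝ), 0 < θ → θ ≤ 1 → 0 < ε → ∃ S : ℕ, ∀ (V : Type) [Fintype V] (A : V → V → Prop),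
    (∀ x y, A x y → ¬ A y x) → S ≤ Fintype.card V → ∀ δ : ℝ, θ * Fintype.card V ≤ δ →
    (∀ v, δ ≤ ({y | A v y}.ncard : ℝ)) → (∀ v, δ ≤ ({y | A y v}.ncard : ℝ)) →
    ∃ (ι κ : Type) (_ : Fintype ι) (_ : Nonempty ι) (P : κ → Finset V) (g : ι → κ) (ρ : κ → κ → Prop) (s : ℕ),
      Fintype.card ι ≤ S ∧ 1 ≤ s ∧ Fintype.card V ≤ S * s ∧ (∀ i j, i ≠ j → Disjoint (P i) (P j)) ∧
      (∀ i, ¬ ρ i i) ∧
      (∀ i j, ρ i j → ∀ X ⊆ P i, ∀ Y ⊆ P j, ε * (P i).card ≤ X.card → ε * (P j).card ≤ Y.card →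
        θ / 16 * (X.card * Y.card) ≤ ed A X Y) ∧
      (∀ k, ({i | g i = k}.ncard : ℝ) * s ≤ (P k).card) ∧
      Wt (fun i j => ρ (g i) (g j)) ((δ - 5 / 8 * θ * Fintype.card V) / s)

/-! ### the theorem -/

/-- main theorem -/
def ST_MAIN : Prop :=
  ∀ θ : ℝ, 0 < θ → ∃ n0 : ℕ, ∀ (V : Type) [Fintype V] (A : V → V → Prop), (∀ x y, A x y → ¬ A y x) →
    n0 ≤ Fintype.card V → ∀ k : ℕ, (∀ v, (k : ℝ) / 2 + θ * Fintype.card V ≤ ({y | A v y}.ncard : ℝ)) →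
    (∀ v, (k : ℝ) / 2 + θ * Fintype.card V ≤ ({y | A y v}.ncard : ℝ)) →
    ∀ σ : ℕ → Bool, ∃ x : ℕ → V, (∀ s t, s ≤ k → t ≤ k → x s = x t → s = t) ∧ Walk A σ 0 k x

end Pool.Agent.Helper34.ST
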