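import Pool.Agent.Helper2.ST.INC
import Pool.Agent.Helper17.ST.MMCS
import Pool.Agent.Helper24.ST.REG
import Pool.Agent.Helper26.ST.HEDGE
import Pool.Agent.Helper28.ST.EXC
import Pool.Agent.Helper28.ST.GLUE
import Pool.Agent.Helper30.ST.PYT
import Pool.Agent.Helper33.ST.PH0
import Pool.Agent.Helper34.ST.Main
import Pool.Agent.Helper34.ST.SEL
import Pool.Agent.Helper41.ST.NL1
import Pool.Agent.Helper41.ST.PH
import Pool.Agent.Helper44.ST.INJ
import Pool.Agent.Helper44.ST.WIDE
import Pool.Agent.Helper50.ST.NLA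
import Pool.Agent.Helper52.ST.WNL
import Pool.Agent.Helper58.ST.EMB
import Pool.Agent.Helper63.ST.RED
import Pool.Agent.Helper67.ST.EXT
import Pool.Agent.Helper7.ST.POT
import Pool.Agent.Helper71.ST.MMC
import Pool.Agent.Helper72.ST.COSTC
import Pool.Agent.Helper74.ST.CHAIN
import Pool.Agent.Helper74.ST.NLB
import Pool.Agent.Helper78.ST.MMCI
import Pool.Agent.Helper83.ST.SCC
import Pool.Agent.Helper85.ST.STEP
import Pool.Agent.Helper89.ST.STAR
import Pool.Agent.Helper91.ST.RWU
import Pool.Agent.Helper94.ST.NL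
import Pool.Agent.Helper94.ST.SW

/-!
# Oriented paths in dense oriented graphs: all modules together
-/

set_option autoImplicit false

namespace Pool.Agent.Helper34.ST

theorem main_all : ST_MAIN := by
  have hMMCI : ST_MMCI := st_MMCI st_CHAIN st_POT
  have hMMC : ST_MMC := st_MMC hMMCI
  have hMMCS : ST_MMCS := Pool.Agent.Helper17.ST.st_MMCS hMMC
  have hNLA : ST_NLA := st_NLA st_STAR st_INJ st_SEL
  have hNLB : ST_NLB := st_NLB hMMCS
  have hNL : ST_NL := st_NL hNLA hNLB st_NL1 st_STAR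
  have hWNL : ST_WNL := st_WNL hMMCS st_INJ st_SEL
  have hSW : ST_SW := st_SW st_EXT
  have hSTEP : ST_STEP := st_STEP st_PH hSW hNL st_EXT st_COSTC st_STAR
  have hNARROW : ST_NARROW := narrow_of_step hSTEP
  have hEXC : ST_EXC := st_EXC st_GLUE
  have hWIDE : ST_WIDE := st_WIDE st_SCC hWNL hNARROW st_EXT st_COSTC st_PH0 hEXC
  have hRWU : ST_RWU := st_RWU hWIDE st_HEDGE
  have hINC : ST_INC := inc st_PYT
  have hREG : ST_REG := st_REG hINC
  have hRED : ST_RED := st_RED hREG
  exact main_of hRED hRWU st_EMB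

end Pool.Agent.Helper34.ST
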