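import Pool.Agent.Helper34.ST.Stmts

/-!
# Basic lemmas for all modules
-/

set_option autoImplicit false

namespace Pool.Agent.Helper34.ST

open Finset

variable {ι : Type}

theorem ht_succ (σ : ℕ → Bool) (t : ℕ) : ht σ (t + 1) = ht σ t + (if σ t then 1 else -1) := rfl

theorem ht_succ_cases (σ : ℕ → Bool) (t : ℕ) : ht σ (t + 1) = ht σ t + 1 ∨ ht σ (t + 1) = ht σ t - 1 := by
  rw [ht_succ]
  by_cases h : σ t = true
  · rw [if_pos h]; exact Or.inl rfl
  · rw [if_neg h]; exact Or.inr (by ring)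

theorem Rg.mono {σ : ℕ → Bool} {a b a' b' J J' : ℕ} (h : Rg σ a b J) (ha : a ≤ a') (hb : b' ≤ b) (hJ : J ≤ J') :
    Rg σ a' b' J' := by
  intro s t h1 h2 h3 h4
  have := h s t (by omega) (by omega) (by omega) (by omega)
  omega

/-- walking along a bi-infinite directed walk -/
theorem walk_dir {r : ι → ι → Prop} {u : ℤ → ι} (hu : Dir r u) (σ : ℕ → Bool) (a b : ℕ) :
    Walk r σ a b (fun t => u (ht σ t)) := by
  intro t _ _
  by_cases h : σ t = true
  · rw [if_pos h]
    have h1 : ht σ (t + 1) = ht σ t + 1 := by rw [ht_succ, if_pos h]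
    show r (u (ht σ t)) (u (ht σ (t + 1)))
    rw [h1]
    exact hu _
  · rw [if_neg h]
    have h1 : ht σ t = ht σ (t + 1) + 1 := by rw [ht_succ, if_neg h]; ring
    show r (u (ht σ (t + 1))) (u (ht σ t))
    rw [h1]
    exact hu _

theorem Walk.sub {V : Type} {A : V → V → Prop} {σ : ℕ → Bool} {a b a' b' : ℕ} {W : ℕ → V}
    (h : Walk A σ a b W) (ha : a ≤ a') (hb : b' ≤ b) : Walk A σ a' b' W :=
  fun t h1 h2 => h t (by omega) (by omega)

theorem Walk.congr {V : Type} {A : V → V → Prop} {σ : ℕ → Bool} {a b : ℕ} {W W' : ℕ → V}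
    (h : Walk A σ a b W) (hW : ∀ t, a ≤ t → t ≤ b → W' t = W t) : Walk A σ a b W' := by
  intro t h1 h2
  rw [hW t h1 h2.le, hW (t + 1) (by omega) (by omega)]
  exact h t h1 h2

theorem cost_congr {z : ι → ℝ} {a b : ℕ} {W W' : ℕ → ι} (hW : ∀ t, a < t → t ≤ b → W' t = W t) :
    cost z W' a b = cost z W a b := by
  unfold cost
  refine Finset.sum_congr rfl fun t ht => ?_
  rw [Finset.mem_Ico] at ht
  rw [hW (t + 1) (by omega) (by omega)]

theorem cost_add (z : ι → ℝ) (W : ℕ → ι) {a b c : ℕ} (h1 : a ≤ b) (h2 : b ≤ c) :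
    cost z W a b + cost z W b c = cost z W a c := by
  unfold cost
  exact Finset.sum_Ico_consecutive _ h1 h2

theorem cost_le {z : ι → ℝ} {Zm : ℝ} (hz : ∀ i, z i ≤ Zm) (W : ℕ → ι) (a ℓ : ℕ) :
    cost z W a (a + ℓ) ≤ ℓ * Zm := by
  unfold cost
  calc ∑ t ∈ Finset.Ico a (a + ℓ), z (W (t + 1)) ≤ ∑ t ∈ Finset.Ico a (a + ℓ), Zm :=
        Finset.sum_le_sum fun t _ => hz _
    _ = ℓ * Zm := by rw [Finset.sum_const, Nat.card_Ico, nsmul_eq_mul, Nat.add_sub_cancel_left]

theorem cost_nonneg {z : ι → ℝ} (hz : ∀ i, 0 ≤ z i) (W : ℕ → ι) (a b : ℕ) : 0 ≤ cost z W a b :=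
  Finset.sum_nonneg fun _ _ => hz _

/-- concatenation of walks -/
theorem cat {V : Type} {A : V → V → Prop} {σ : ℕ → Bool} {a b c : ℕ} {W1 W2 : ℕ → V} (hab : a ≤ b) (hbc : b ≤ c)
    (h1 : Walk A σ a b W1) (h2 : Walk A σ b c W2) (h : W1 b = W2 b) :
    ∃ W : ℕ → V, Walk A σ a c W ∧ (∀ t, t ≤ b → W t = W1 t) ∧ (∀ t, b ≤ t → W t = W2 t) := by
  refine ⟨fun t => if t ≤ b then W1 t else W2 t, ?_, fun t ht => if_pos ht, fun t ht => ?_⟩
  · intro t ht1 ht2
    rcases Nat.lt_or_ge t b with htb | htb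
    · have e1 : (if t ≤ b then W1 t else W2 t) = W1 t := if_pos htb.le
      have e2 : (if t + 1 ≤ b then W1 (t + 1) else W2 (t + 1)) = W1 (t + 1) := if_pos htb
      simp only [e1, e2]
      exact h1 t ht1 htb
    · have e1 : (if t ≤ b then W1 t else W2 t) = W2 t := by
        rcases Nat.eq_or_lt_of_le htb with h3 | h3
        · rw [if_pos h3.symm.le, ← h3, h]
        · exact if_neg (by omega)
      have e2 : (if t + 1 ≤ b then W1 (t + 1) else W2 (t + 1)) = W2 (t + 1) := if_neg (by omega)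
      simp only [e1, e2]
      exact h2 t htb ht2
  · show (if t ≤ b then W1 t else W2 t) = W2 t
    rcases Nat.eq_or_lt_of_le ht with h3 | h3
    · rw [if_pos h3.symm.le, ← h3, h]
    · exact if_neg (by omega)

theorem cat_cost {z : ι → ℝ} {a b c : ℕ} {W W1 W2 : ℕ → ι} (hab : a ≤ b) (hbc : b ≤ c)
    (h1 : ∀ t, t ≤ b → W t = W1 t) (h2 : ∀ t, b ≤ t → W t = W2 t) :
    cost z W a c = cost z W1 a b + cost z W2 b c := by
  rw [← cost_add z W hab hbc, cost_congr (fun t _ ht => h1 t ht), cost_congr (fun t ht _ => h2 t ht.le)]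

/-! ### nfull -/

theorem nfull_zero (σ : ℕ → Bool) (a ℓ J : ℕ) : nfull σ a ℓ J 0 = 0 := by
  unfold nfull
  simp

theorem nfull_finite (σ : ℕ → Bool) (a ℓ J q : ℕ) :
    {q' | q' < q ∧ ¬ Rg σ (a + q' * ℓ) (a + (q' + 1) * ℓ) J}.Finite :=
  (Set.finite_Iio q).subset fun _ h => h.1

open Classical in
theorem nfull_succ (σ : ℕ → Bool) (a ℓ J q : ℕ) : nfull σ a ℓ J (q + 1) =
    nfull σ a ℓ J q + (if Rg σ (a + q * ℓ) (a + (q + 1) * ℓ) J then 0 else 1) := by
  by_cases h : Rg σ (a + q * ℓ) (a + (q + 1) * ℓ) J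
  · rw [if_pos h, add_zero]
    unfold nfull
    congr 1
    ext q'
    constructor
    · rintro ⟨h1, h2⟩
      refine ⟨?_, h2⟩
      rcases Nat.lt_succ_iff_lt_or_eq.1 h1 with h3 | h3
      · exact h3
      · rw [h3] at h2
        exact absurd h h2
    · rintro ⟨h1, h2⟩
      exact ⟨by omega, h2⟩
  · rw [if_neg h]
    unfold nfull
    have e : {q' | q' < q + 1 ∧ ¬ Rg σ (a + q' * ℓ) (a + (q' + 1) * ℓ) J}
        = insert q {q' | q' < q ∧ ¬ Rg σ (a + q' * ℓ) (a + (q' + 1) * ℓ) J} := by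
      ext q'
      constructor
      · rintro ⟨h1, h2⟩
        rcases Nat.lt_succ_iff_lt_or_eq.1 h1 with h3 | h3
        · exact Or.inr ⟨h3, h2⟩
        · exact Or.inl h3
      · rintro (h1 | ⟨h1, h2⟩)
        · rw [h1]
          exact ⟨by omega, h⟩
        · exact ⟨by omega, h2⟩
    rw [e, Set.ncard_insert_of_notMem (fun h1 => absurd h1.1 (lt_irrefl q)) (nfull_finite σ a ℓ J q)]

theorem nfull_le (σ : ℕ → Bool) (a ℓ J q : ℕ) : nfull σ a ℓ J q ≤ q := by
  induction q with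
  | zero => rw [nfull_zero]
  | succ q ih =>
    rw [nfull_succ]
    split_ifs <;> omega

theorem nfull_mono (σ : ℕ → Bool) (a ℓ J : ℕ) {q q' : ℕ} (h : q ≤ q') : nfull σ a ℓ J q ≤ nfull σ a ℓ J q' := by
  induction q', h using Nat.le_induction with
  | base => exact le_rfl
  | succ q' _ ih =>
    rw [nfull_succ]
    omega

/-- splitting -/
theorem nfull_add (σ : ℕ → Bool) (a ℓ J q q' : ℕ) :
    nfull σ a ℓ J (q + q') = nfull σ a ℓ J q + nfull σ (a + q * ℓ) ℓ J q' := by
  induction q' with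
  | zero => rw [nfull_zero]; rfl
  | succ q' ih =>
    rw [← add_assoc, nfull_succ, nfull_succ, ih, add_assoc]
    have e1 : a + (q + q') * ℓ = a + q * ℓ + q' * ℓ := by ring
    have e2 : a + (q + q' + 1) * ℓ = a + q * ℓ + (q' + 1) * ℓ := by ring
    rw [e1, e2]

/-- intermediate values -/
theorem nfull_ivt (σ : ℕ → Bool) (a ℓ J Q R : ℕ) (h : R ≤ nfull σ a ℓ J Q) : ∃ q, q ≤ Q ∧ nfull σ a ℓ J q = R := by
  induction Q with
  | zero => exact ⟨0, le_rfl, by rw [nfull_zero] at h ⊢; omega⟩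
  | succ Q ih =>
    by_cases h1 : R ≤ nfull σ a ℓ J Q
    · obtain ⟨q, hq, h2⟩ := ih h1
      exact ⟨q, by omega, h2⟩
    · refine ⟨Q + 1, le_rfl, ?_⟩
      rw [nfull_succ] at h ⊢
      split_ifs at h ⊢ <;> omega

/-! ### degrees -/

theorem Wt.toO [Fintype ι] {r : ι → ι → Prop} {d : ℝ} (h : Wt r d) : WtO r d := by
  obtain ⟨w, h1, h2, h3, h4, _⟩ := h
  exact ⟨w, h1, h2, h3, h4⟩

theorem Wt.flip [Fintype ι] {r : ι → ι → Prop} {d : ℝ} (h : Wt r d) : Wt (fun a b => r b a) d := by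
  obtain ⟨w, h1, h2, h3, h4, h5⟩ := h
  exact ⟨fun i j => w j i, fun i j => h1 j i, fun i j h => h2 j i h, fun i j => h3 j i, h5, h4⟩

theorem WtO.ncard [Fintype ι] {r : ι → ι → Prop} {d : ℝ} (h : WtO r d) (x : ι) :
    d ≤ ({y | r x y}.ncard : ℝ) := by
  classical
  obtain ⟨w, h1, h2, h3, h4⟩ := h
  have e : {y | r x y}.ncard = (univ.filter (fun y => r x y)).card := by
    rw [← Set.ncard_coe_finset]
    congr 1
    ext y
    simp
  rw [e]
  calc d ≤ ∑ j, w x j := h4 x
    _ ≤ ∑ j, (if r x j then (1 : ℝ) else 0) := by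
        refine Finset.sum_le_sum fun j _ => ?_
        split_ifs with h
        · have := h3 x j
          have := h1 j x
          linarith
        · by_contra h5
          push Not at h5
          exact h (h2 x j h5)
    _ = ((univ.filter (fun y => r x y)).card : ℝ) := by
        rw [Finset.sum_ite, Finset.sum_const_zero, add_zero, Finset.sum_const, nsmul_eq_mul, mul_one]

theorem WtO.exists_out [Fintype ι] {r : ι → ι → Prop} {d : ℝ} (h : WtO r d) (hd : 0 < d) (x : ι) : ∃ y, r x y := by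
  have h1 := h.ncard x
  by_contra h2
  push Not at h2
  have e : {y | r x y} = ∅ := by
    ext y
    simp [h2 y]
  rw [e, Set.ncard_empty, Nat.cast_zero] at h1
  linarith

theorem Wt.exists_out [Fintype ι] {r : ι → ι → Prop} {d : ℝ} (h : Wt r d) (hd : 0 < d) (x : ι) : ∃ y, r x y :=
  h.toO.exists_out hd x

theorem Wt.exists_in [Fintype ι] {r : ι → ι → Prop} {d : ℝ} (h : Wt r d) (hd : 0 < d) (x : ι) : ∃ y, r y x :=
  h.flip.toO.exists_out hd x

theorem WtO.le_card [Fintype ι] [Nonempty ι] {r : ι → ι → Prop} {d : ℝ} (h : WtO r d) : d ≤ Fintype.card ι := by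
  have h1 := h.ncard (Classical.arbitrary ι)
  have h2 : {y | r (Classical.arbitrary ι) y}.ncard ≤ Fintype.card ι := by
    rw [← Nat.card_eq_fintype_card]
    exact Set.ncard_le_card _
  exact h1.trans (by exact_mod_cast h2)

/-- costs are at most `2 d` -/
theorem Cst.le [Fintype ι] {z : ι → ℝ} {d : ℝ} (h : Cst z d) (i : ι) : z i ≤ 2 * d :=
  (Finset.single_le_sum (fun j _ => h.1 j) (Finset.mem_univ i)).trans h.2

/-! ### paths -/

theorem Pth.zero {r : ι → ι → Prop} (x : ι) : Pth r 0 x x := ⟨fun _ => x, rfl, rfl, fun i h => absurd h (Nat.not_lt_zero i)⟩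

theorem Pth.append {r : ι → ι → Prop} {m n : ℕ} {x y w : ι} (h1 : Pth r m x y) (h2 : Pth r n y w) :
    Pth r (m + n) x w := by
  obtain ⟨p, hp0, hpm, hp⟩ := h1
  obtain ⟨q, hq0, hqn, hq⟩ := h2
  refine ⟨fun i => if i ≤ m then p i else q (i - m), ?_, ?_, ?_⟩
  · simp [hp0]
  · by_cases h : m + n ≤ m
    · have hn : n = 0 := by omega
      subst hn
      simp only [add_zero, le_refl, if_true]
      rw [hpm, ← hqn, hq0]
    · simp only [h, if_false, Nat.add_sub_cancel_left]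
      exact hqn
  · intro i hi
    rcases Nat.lt_or_ge i m with h | h
    · have e1 : (if i ≤ m then p i else q (i - m)) = p i := if_pos h.le
      have e2 : (if i + 1 ≤ m then p (i + 1) else q (i + 1 - m)) = p (i + 1) := if_pos h
      simp only [e1, e2]
      exact hp i h
    · have e1 : (if i ≤ m then p i else q (i - m)) = q (i - m) := by
        rcases Nat.eq_or_lt_of_le h with h3 | h3
        · rw [if_pos h3.symm.le, ← h3, hpm, Nat.sub_self, hq0]
        · exact if_neg (by omega)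
      have e2 : (if i + 1 ≤ m then p (i + 1) else q (i + 1 - m)) = q (i - m + 1) := by
        rw [if_neg (by omega)]
        congr 1
        omega
      simp only [e1, e2]
      exact hq (i - m) (by omega)

theorem Pth.one {r : ι → ι → Prop} {x y : ι} (h : r x y) : Pth r 1 x y :=
  ⟨fun i => if i = 0 then x else y, by simp, by simp, fun i hi => by
    have : i = 0 := by omega
    subst this
    simpa using h⟩

theorem exists_pth_out {r : ι → ι → Prop} (h : ∀ x, ∃ y, r x y) (n : ℕ) (x : ι) : ∃ y, Pth r n x y := by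
  induction n with
  | zero => exact ⟨x, Pth.zero x⟩
  | succ n ih =>
    obtain ⟨y, hy⟩ := ih
    obtain ⟨w, hw⟩ := h y
    exact ⟨w, hy.append (Pth.one hw)⟩

theorem exists_pth_in {r : ι → ι → Prop} (h : ∀ x, ∃ y, r y x) (n : ℕ) (x : ι) : ∃ y, Pth r n y x := by
  induction n with
  | zero => exact ⟨x, Pth.zero x⟩
  | succ n ih =>
    obtain ⟨y, hy⟩ := ih
    obtain ⟨w, hw⟩ := h y
    refine ⟨w, ?_⟩
    have := (Pth.one hw).append hy
    rwa [Nat.add_comm] at this

theorem Pth.flip {r : ι → ι → Prop} {n : ℕ} {x y : ι} (h : Pth r n x y) : Pth (fun a b => r b a) n y x := by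
  obtain ⟨p, h0, hn, hp⟩ := h
  refine ⟨fun i => p (n - i), by simpa using hn, by simpa using h0, fun i hi => ?_⟩
  have e : n - i = n - (i + 1) + 1 := by omega
  show r (p (n - (i + 1))) (p (n - i))
  rw [e]
  exact hp _ (by omega)

end Pool.Agent.Helper34.ST
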