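import Mathlib

/-!
# Oriented paths in dense oriented graphs: definitions
-/

set_option autoImplicit false

namespace Pool.Agent.Helper34.ST

open Finset

variable {ι : Type}

/-- weighted out-degrees at least `d`, opposite weights sum to at most one -/
def WtO [Fintype ι] (r : ι → ι → Prop) (d : ℝ) : Prop :=
  ∃ w : ι → ι → ℝ, (∀ i j, 0 ≤ w i j) ∧ (∀ i j, 0 < w i j → r i j) ∧ (∀ i j, w i j + w j i ≤ 1) ∧
    (∀ i, d ≤ ∑ j, w i j)

/-- weighted semidegrees at least `d`, opposite weights sum to at most one -/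
def Wt [Fintype ι] (r : ι → ι → Prop) (d : ℝ) : Prop :=
  ∃ w : ι → ι → ℝ, (∀ i j, 0 ≤ w i j) ∧ (∀ i j, 0 < w i j → r i j) ∧ (∀ i j, w i j + w j i ≤ 1) ∧
    (∀ i, d ≤ ∑ j, w i j) ∧ (∀ j, d ≤ ∑ i, w i j)

/-- there is a directed walk of length `n` from `x` to `y` -/
def Pth (r : ι → ι → Prop) (n : ℕ) (x y : ι) : Prop :=
  ∃ p : ℕ → ι, p 0 = x ∧ p n = y ∧ ∀ i, i < n → r (p i) (p (i + 1))

/-- chain of pairs with a common descendant at distance `j` -/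
def Conn (r : ι → ι → Prop) (j : ℕ) (x y : ι) : Prop :=
  Relation.ReflTransGen (fun a b => ∃ w, Pth r j a w ∧ Pth r j b w) x y

/-- bi-infinite directed walk -/
def Dir (r : ι → ι → Prop) (u : ℤ → ι) : Prop := ∀ i, r (u i) (u (i + 1))

/-- height of the pattern at time `t` -/
def ht (σ : ℕ → Bool) : ℕ → ℤ
  | 0 => 0
  | t + 1 => ht σ t + (if σ t then 1 else -1)

/-- the heights at the times of `[a, b]` differ by at most `J` -/
def Rg (σ : ℕ → Bool) (a b J : ℕ) : Prop :=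
  ∀ s t, a ≤ s → s ≤ b → a ≤ t → t ≤ b → ht σ s - ht σ t ≤ J

/-- `W` follows the pattern `σ` between the times `a` and `b` -/
def Walk {V : Type} (A : V → V → Prop) (σ : ℕ → Bool) (a b : ℕ) (W : ℕ → V) : Prop :=
  ∀ t, a ≤ t → t < b → if σ t then A (W t) (W (t + 1)) else A (W (t + 1)) (W t)

/-- cost of the vertices visited at the times of `(a, b]` -/
noncomputable def cost (z : ι → ℝ) (W : ℕ → ι) (a b : ℕ) : ℝ := ∑ t ∈ Finset.Ico a b, z (W (t + 1))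

/-- patterns of length `ℓ` and range at most `J` can be followed at cost at most `κ` from a given
directed walk back to this directed walk -/
def NC (r : ι → ι → Prop) (z : ι → ℝ) (ℓ J : ℕ) (κ : ℝ) : Prop :=
  ∀ (σ : ℕ → Bool) (u : ℤ → ι) (a : ℕ), Dir r u → Rg σ a (a + ℓ) J →
    ∃ W : ℕ → ι, Walk r σ a (a + ℓ) W ∧ W a = u (ht σ a) ∧ W (a + ℓ) = u (ht σ (a + ℓ)) ∧
      cost z W a (a + ℓ) ≤ κ

/-- costs of total at most `2 d` -/
def Cst [Fintype ι] (z : ι → ℝ) (d : ℝ) : Prop := (∀ i, 0 ≤ z i) ∧ ∑ i, z i ≤ 2 * d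

/-- narrow blocks can be followed cheaply -/
def Narrow [Fintype ι] (r : ι → ι → Prop) (J : ℕ) : Prop :=
  ∀ η : ℝ, 0 < η → ∃ ℓ : ℕ, 1 ≤ ℓ ∧ ∀ d : ℝ, 0 < d → Wt r d → ∀ z : ι → ℝ, Cst z d →
    NC r z ℓ J ((1 + η) * ℓ)

/-- all blocks of a certain length can be followed cheaply, starting and ending in `C` -/
def Wide [Fintype ι] (r : ι → ι → Prop) : Prop :=
  ∀ η : ℝ, 0 < η → ∃ (ℓ : ℕ) (C : Set ι), 1 ≤ ℓ ∧ ((∃ d, 0 < d ∧ Wt r d) → ∃ u : ℤ → ι, Dir r u ∧ ∀ i, u i ∈ C) ∧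
    ∀ d : ℝ, 0 < d → Wt r d → ∀ z : ι → ℝ, Cst z d →
    ∀ (σ : ℕ → Bool) (u : ℤ → ι) (a : ℕ), Dir r u → (∀ i, u i ∈ C) →
      ∃ (W : ℕ → ι) (u' : ℤ → ι), Dir r u' ∧ (∀ i, u' i ∈ C) ∧ Walk r σ a (a + ℓ) W ∧
        W a = u (ht σ a) ∧ W (a + ℓ) = u' (ht σ (a + ℓ)) ∧ cost z W a (a + ℓ) ≤ (1 + η) * ℓ

/-- patterns can be followed with balanced loads -/
def Bal [Fintype ι] (r : ι → ι → Prop) (η : ℝ) (K : ℕ) : Prop :=
  ∀ d : ℝ, 0 < d → Wt r d → ∀ (σ : ℕ → Bool) (k : ℕ), ∃ W : ℕ → ι, Walk r σ 0 k W ∧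
    ∀ i, ({t | t ≤ k ∧ W t = i}.ncard : ℝ) ≤ (1 + η) * k / (2 * d) + K

/-- number of blocks `q' < q` of length `ℓ` (starting from time `a`) of range greater than `J` -/
noncomputable def nfull (σ : ℕ → Bool) (a ℓ J q : ℕ) : ℕ :=
  {q' | q' < q ∧ ¬ Rg σ (a + q' * ℓ) (a + (q' + 1) * ℓ) J}.ncard

/-- number of arcs from `X` to `Y` -/
noncomputable def ed {V : Type} (A : V → V → Prop) (X Y : Finset V) : ℕ :=
  {p : V × V | p.1 ∈ X ∧ p.2 ∈ Y ∧ A p.1 p.2}.ncard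

/-- lower regularity -/
def LReg {V : Type} (A : V → V → Prop) (ε : ℝ) (X Y : Finset V) : Prop :=
  ∀ X' ⊆ X, ∀ Y' ⊆ Y, ε * X.card ≤ X'.card → ε * Y.card ≤ Y'.card →
    ((ed A X Y : ℝ) / (X.card * Y.card) - ε) * (X'.card * Y'.card) ≤ ed A X' Y'

open Classical in
/-- the class of colour `i` -/
noncomputable def cl {V κ : Type} [Fintype V] (c : V → κ) (i : κ) : Finset V :=
  Finset.univ.filter (fun v => c v = i)

/-- density of the arcs from `X` to `Y` -/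
noncomputable def dn {V : Type} (A : V → V → Prop) (X Y : Finset V) : ℝ :=
  (ed A X Y : ℝ) / (X.card * Y.card)

/-- energy of a partition -/
noncomputable def en {V κ : Type} [Fintype V] (A : V → V → Prop) (c : V → κ) : ℝ :=
  ∑ x : V, ∑ y : V, dn A (cl c (c x)) (cl c (c y)) ^ 2

open Classical in
/-- total size of the pairs of classes which are not lower regular -/
noncomputable def irr {V κ : Type} [Fintype V] [Fintype κ] (A : V → V → Prop) (ε : ℝ) (c : V → κ) : ℝ :=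
  ∑ i : κ, ∑ j : κ, if LReg A ε (cl c i) (cl c j) then 0 else ((cl c i).card : ℝ) * (cl c j).card

end Pool.Agent.Helper34.ST
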